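import Mathlib

/-!
# Ultrapower extensions and enlargements

For an ultrafilter `U` on a set `I`, the ultrapower `X^I / U` of a set `X` is Mathlib's type of germs
`(U : Filter I).Germ X`; the ultrapowers of all sets of a superstructure form (by the theorem of
Łoś) a nonstandard extension of it.
-/

namespace Q204.UP

open Filter

/-- The ultrapower `*X = X^I / U`. -/
abbrev UPow {I : Type} (U : Ultrafilter I) (X : Type) : Type := (U : Filter I).Germ X

/-- The star-image `*A ⊆ *X` of `A ⊆ X`: the class of `f` is in `*A` iff `f i ∈ A` for `U`-almost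
all `i`. -/
def star {I : Type} (U : Ultrafilter I) {X : Type} (A : Set X) : Set (UPow U X) :=
  {x | x.LiftPred (fun a => a ∈ A)}

/-- The extension given by `U` is an enlargement for all sets of cardinality at most `κ`: for every
family of subsets of such a set with the finite intersection property, the star-images of the
members have a common element. (With `κ` at least `ℶ_ω` this covers all families of standard sets
in the superstructure over the natural numbers.) -/
def IsEnlargement (κ : Cardinal.{0}) {I : Type} (U : Ultrafilter I) : Prop :=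
  ∀ X : Type, Cardinal.mk X ≤ κ → ∀ 𝒜 : Set (Set X),
    (∀ s : Finset (Set X), (s : Set (Set X)) ⊆ 𝒜 → (⋂ A ∈ s, A).Nonempty) →
    (⋂ A ∈ 𝒜, star U A).Nonempty

/-- The monad of an ultrafilter `F` on the positive integers. -/
def monad {I : Type} (U : Ultrafilter I) (F : Ultrafilter ℕ+) : Set (UPow U ℕ+) :=
  {x | ∀ A ∈ F, x ∈ star U A}

/-- The set `A↑` of the positive integers divisible by some element of `A`. -/
def up (A : Set ℕ+) : Set ℕ+ := {n | ∃ a ∈ A, a ∣ n}

/-- `F` tilde-divides `G`: `A↑ ∈ G` for every `A ∈ F`. -/
def TildeDvd (F G : Ultrafilter ℕ+) : Prop := ∀ A ∈ F, up A ∈ G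

/-- Star-divisibility on the nonstandard positive integers: `y = x * z` for some `z`. -/
def StarDvd {I : Type} {U : Ultrafilter I} (x y : UPow U ℕ+) : Prop :=
  ∃ z : UPow U ℕ+, y = x * z

end Q204.UP
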