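import Pool.Agent.Q204.UP.Defs

namespace Q204.UP

open Filter

theorem coe_mem_star {I : Type} (U : Ultrafilter I) {X : Type} (A : Set X) (f : I → X) :
    ((f : (U : Filter I).Germ X) : UPow U X) ∈ star U A ↔ ∀ᶠ i in (U : Filter I), f i ∈ A :=
  Iff.rfl

/-- An enlargement for all sets of cardinality at most `κ`. -/
theorem exists_enlargement (κ : Cardinal.{0}) : ∃ (J : Type) (W : Ultrafilter J),
    ∀ X : Type, Cardinal.mk X ≤ κ → ∀ 𝒜 : Set (Set X),
    (∀ s : Finset (Set X), (s : Set (Set X)) ⊆ 𝒜 → (⋂ A ∈ s, A).Nonempty) →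
    ∃ g : J → X, ∀ A ∈ 𝒜, ∀ᶠ j in (W : Filter J), g j ∈ A := by
  classical
  let K : Type := κ.out
  have hK : Cardinal.mk K = κ := Cardinal.mk_out κ
  refine ⟨Finset (Set K), Ultrafilter.of atTop, fun X hX 𝒜 hA => ?_⟩
  rw [← hK] at hX
  obtain ⟨e⟩ : Nonempty (X ↪ K) := hX
  have h : ∀ s : Finset (Set K), ∃ x : X, ∀ A ∈ 𝒜, e '' A ∈ s → x ∈ A := by
    intro s
    let t : Finset (Set X) := (s.image fun B => e ⁻¹' B).filter (· ∈ 𝒜)
    obtain ⟨x, hx⟩ := hA t (by
      intro A hA'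
      exact (Finset.mem_filter.1 hA').2)
    refine ⟨x, fun A hA' hAs => ?_⟩
    have h2 : A ∈ t := by
      rw [Finset.mem_filter]
      refine ⟨Finset.mem_image.2 ⟨e '' A, hAs, ?_⟩, hA'⟩
      exact Set.preimage_image_eq A e.injective
    simp only [Set.mem_iInter] at hx
    exact hx A h2
  choose g hg using h
  refine ⟨g, fun A hA' => ?_⟩
  have h1 : ((Ultrafilter.of atTop : Ultrafilter (Finset (Set K))) : Filter (Finset (Set K))) ≤
      atTop := Ultrafilter.of_le _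
  apply h1
  filter_upwards [eventually_ge_atTop {e '' A}] with s hs
  exact hg s A hA' (hs (Finset.mem_singleton_self _))

/-- The product `G ⊗ W`. -/
def prod {A J : Type} (G : Ultrafilter A) (W : Ultrafilter J) : Ultrafilter (A × J) :=
  Ultrafilter.bind G (fun m => Ultrafilter.map (fun j => (m, j)) W)

theorem eventually_prod {A J : Type} (G : Ultrafilter A) (W : Ultrafilter J) (p : A × J → Prop) :
    (∀ᶠ i in (prod G W : Filter (A × J)), p i) ↔
      ∀ᶠ m in (G : Filter A), ∀ᶠ j in (W : Filter J), p (m, j) := Iff.rfl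

theorem prod_enlargement {κ : Cardinal.{0}} {A J : Type} (G : Ultrafilter A) (W : Ultrafilter J)
    (hW : ∀ X : Type, Cardinal.mk X ≤ κ → ∀ 𝒜 : Set (Set X),
      (∀ s : Finset (Set X), (s : Set (Set X)) ⊆ 𝒜 → (⋂ A ∈ s, A).Nonempty) →
      ∃ g : J → X, ∀ A ∈ 𝒜, ∀ᶠ j in (W : Filter J), g j ∈ A) :
    IsEnlargement κ (prod G W) := by
  intro X hX 𝒜 hA
  obtain ⟨g, hg⟩ := hW X hX 𝒜 hA
  refine ⟨((fun i : A × J => g i.2 : A × J → X) : (prod G W : Filter (A × J)).Germ X), ?_⟩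
  simp only [Set.mem_iInter]
  intro B hB
  rw [coe_mem_star, eventually_prod]
  exact Filter.Eventually.of_forall fun m => hg B hB

/-- A family of functions with finitely many possible values is `W`-almost everywhere constant. -/
theorem ev_const {J Y : Type} (W : Ultrafilter J) (h : J → Y) {S : Set Y} (hS : S.Finite)
    (hh : ∀ᶠ j in (W : Filter J), h j ∈ S) : ∃ y ∈ S, ∀ᶠ j in (W : Filter J), h j = y := by
  have h1 : h ⁻¹' S ∈ W := hh
  have h2 : h ⁻¹' S = ⋃ y ∈ S, h ⁻¹' {y} := by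
    ext j; simp
  rw [h2] at h1
  obtain ⟨y, hy, hy2⟩ := (Ultrafilter.finite_biUnion_mem_iff hS).1 h1
  exact ⟨y, hy, hy2⟩

theorem starDvd_coe {I : Type} {U : Ultrafilter I} (f g : I → ℕ+)
    (h : StarDvd (U := U) (f : (U : Filter I).Germ ℕ+) (g : (U : Filter I).Germ ℕ+)) :
    ∀ᶠ i in (U : Filter I), f i ∣ g i := by
  obtain ⟨z, hz⟩ := h
  induction z using Germ.inductionOn with
  | h k =>
    have h2 : ((g : (U : Filter I).Germ ℕ+)) = ((f * k : I → ℕ+) : (U : Filter I).Germ ℕ+) := hz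
    rw [Germ.coe_eq] at h2
    filter_upwards [h2] with i hi
    exact ⟨k i, hi⟩

end Q204.UP
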